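import Pool.Agent.P8H34.UA.PartA2
import Pool.Agent.P8H34.UA.Slopes2

/-!
# The isogeny type of `U_A` is not determined by the Newton polygon for `a`-number one

For every prime `p` and every algebraically closed field `k` of characteristic `p` there are two
Dieudonné modules `M` and `M'` of rank `12` over `k`, both with `a`-number `1` and with the Newton slopes
`1/3` and `2/3`, each with multiplicity `6`, such that the groups `U` of their exterior squares are not
isogenous.

By the theorem of Honda, Serre and Tate (Manin's conjecture) there is an abelian variety of dimension `6`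
over `k` with this Newton polygon; by the theorem of Dieudonné and Manin its isocrystal is isomorphic to
`M ⊗ ℚ` and to `M' ⊗ ℚ`, and then `M` and `M'` are the modules `H¹_cris(A/W)` and `H¹_cris(A'/W)` of
abelian varieties `A` and `A'` isogenous to it, because the lattices stable under `F` and `V` correspond
to the isogenies of `p`-power degree. So the answer to the question is negative, for every `p` and `k`.

The modules are cyclic, generated by an element `x`, with the relations
`F⁶ x = (p² - p⁴) x + V⁶ x` for `M` and `F⁶ x = (p² - p⁴) x + p F³ x + p² V³ x + V⁶ x` for `M'`.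
The proof shows that `p² U` has dimension at most `1` for `M` and at least `2` for `M'`.

The definitions `AlgClosedExt`, `Emb`, `GrpFunctor`, `Isogeny`, `Isogenous`, `DieudonneModule`,
`ExtSq`, `frobSq`, `imageU`, `groupU` are in `Pool.Agent.P8H34.UA.Defs`.
-/

set_option autoImplicit false

universe u

open Pool.Agent.P8H34.UA

/-- For every prime `p` and every algebraically closed field `k` of characteristic `p` there are
Dieudonné modules `M`, `M'` of rank `12 = 2 g`, `g = 6`, over `k`, with `a`-number `1` and with the same
Newton polygon (slopes `1/3` and `2/3`, both with multiplicity `6`), such that the groups `U_{∧² M}` and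
`U_{∧² M'}` are not isogenous. -/
theorem Pool.Agent.Results.MP_381773_ag.ANumberOne.result (p : ℕ) [Fact p.Prime] (k : Type u) [Field k]
    [CharP k p] [IsAlgClosed k] :
    ∃ M M' : DieudonneModule p k 12,
      M.aNumber = 1 ∧ M'.aNumber = 1 ∧
      M.HasSlopes ![1, 2] ![3, 3] ![6, 6] ∧ M'.HasSlopes ![1, 2] ![3, 3] ![6, 6] ∧
      ¬ Isogenous (groupU M) (groupU M') :=
  ⟨exM p k 0, exM p k 1, exM_aNumber 0, exM_aNumber 1, exM_hasSlopes 0, exM_hasSlopes 1,
    not_isogenous⟩
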